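import Mathlib
import Pool.Agent.Helpers.RO4

universe u

namespace Pool.Agent.Results.MP_0c2877_al.InfAbel

/-- Every nontrivial soluble right-orderable group has infinite abelianization. -/
theorem result : ∀ (G : Type u) [Group G] [Nontrivial G], Group.IsSolvable G →
    (∃ lt : G → G → Prop, IsStrictTotalOrder G lt ∧
      ∀ a b c : G, lt a b → lt (a * c) (b * c)) →
    Infinite (Abelianization G) := by
  intro G _ _ hs h
  obtain ⟨lt, hlt, hinv⟩ := h
  exact SolvRO.main_RO G hs lt hlt hinv

end Pool.Agent.Results.MP_0c2877_al.InfAbel
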